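import Mathlib
import Pool.Agent.P8H39.FDF.Stm

/-! FDF certificates: definitions of the local function of five positions. -/

namespace P8H39.FDF

/-- relation digit: 1 if a → b, 2 if b → a, 0 if not adjacent -/
def rel {V : Type} (r : V → V → Bool) (a b : V) : ℕ :=
  if r a b = true then 1 else if r b a = true then 2 else 0

/-- class (0..14) of a rooted triple with digit code t = 9 rel(a,b) + 3 rel(a,c) + rel(b,c),
invariant under b <-> c -/
def c15 (t : ℕ) : ℕ := (302789193386810290963938900386064 >>> (4 * t)) % 16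

/-- 1 if the triple with digit code t is not `miss` -/
def cntT (t : ℕ) : ℕ := (28413104 >>> t) % 2

/-- signed entry number k of a packed table -/
def look (N k : ℕ) : ℤ := (((N >>> (64 * k)) % 18446744073709551616 : ℕ) : ℤ) - 9223372036854775808

/-- data of a certificate: packed matrices for the seven canonical types of order three and for the type of
order one, packed multipliers -/
structure Cert where
  q0 : ℕ
  q1 : ℕ
  q4 : ℕ
  q5 : ℕ
  q8 : ℕ
  q13 : ℕ
  q16 : ℕ
  qone : ℕ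
  mu : ℕ

def Cert.q3 (C : Cert) (t i j : ℕ) : ℤ :=
  match t with
  | 0 => look C.q0 (27 * i + j)
  | 1 => look C.q1 (27 * i + j)
  | 4 => look C.q4 (27 * i + j)
  | 5 => look C.q5 (27 * i + j)
  | 8 => look C.q8 (27 * i + j)
  | 13 => look C.q13 (27 * i + j)
  | 16 => look C.q16 (27 * i + j)
  | _ => 0

def Cert.qq (C : Cert) (i j : ℕ) : ℤ := look C.qone (15 * i + j)

/-- nonnegative multiplier of class i -/
def Cert.mm (C : Cert) (i : ℕ) : ℤ := (((C.mu >>> (64 * i)) % 18446744073709551616 : ℕ) : ℤ)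

/-- the part of the local function which has nonnegative average -/
def Cert.pos (C : Cert) (r12 r13 r23 r14 r24 r34 r15 r25 r35 r45 : ℕ) : ℤ :=
  18000 * (C.q3 (9 * r12 + 3 * r13 + r23) (9 * r14 + 3 * r24 + r34) (9 * r15 + 3 * r25 + r35)
    + C.qq (c15 (9 * r12 + 3 * r13 + r23)) (c15 (9 * r14 + 3 * r15 + r45)))
  + C.mm (c15 (9 * r12 + 3 * r13 + r23)) * (18000 * (cntT (9 * r14 + 3 * r15 + r45) : ℤ) - 10000)

/-- V^5-sum of a function of the ten digits -/
def S5 {V : Type} [Fintype V] (r : V → V → Bool) (f : ℕ → ℕ → ℕ → ℕ → ℕ → ℕ → ℕ → ℕ → ℕ → ℕ → ℤ) : ℤ :=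
  ∑ a : V, ∑ b : V, ∑ c : V, ∑ d : V, ∑ e : V,
    f (rel r a b) (rel r a c) (rel r b c) (rel r a d) (rel r b d) (rel r c d)
      (rel r a e) (rel r b e) (rel r c e) (rel r d e)

/-- the packed matrix q (27 x 27) is the Gram matrix of the integer vectors of `G` (each vector: packed, 27 entries) -/
def gram27 (q : ℕ) (G : List ℕ) : Bool :=
  (List.range 27).all fun i => (List.range 27).all fun j =>
    look q (27 * i + j) == (G.map fun g => look g i * look g j).sum

def gram15 (q : ℕ) (G : List ℕ) : Bool :=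
  (List.range 15).all fun i => (List.range 15).all fun j =>
    look q (15 * i + j) == (G.map fun g => look g i * look g j).sum

/-- CPOS (120 lines): the average of `pos` is nonnegative.
PROOF. Fix a, b, c with type code t (all digits are <= 2, so the codes are < 27): the sum over d, e of
q3 t F_d F_e is sum_k (sum_d G_k[F_d])^2 >= 0. Fix a: the sum over b,c,d,e of qq is a sum of squares.
Fix a: sum_{b,c} mm (...) >= 0 and sum_{d,e} (18000 cnt - 10000) = n^2 (8000 - 18000 fv a) >= 0, since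
cntT (9 rel a d + 3 rel a e + rel d e) = 1 - B (miss r a d e) for `Ori` r (27 cases: decide). -/
def S_CPOS : Prop := ∀ (C : Cert), (∃ G, gram27 C.q0 G = true) → (∃ G, gram27 C.q1 G = true) →
  (∃ G, gram27 C.q4 G = true) → (∃ G, gram27 C.q5 G = true) → (∃ G, gram27 C.q8 G = true) →
  (∃ G, gram27 C.q13 G = true) → (∃ G, gram27 C.q16 G = true) → (∃ G, gram15 C.qone G = true) →
  ∀ (V : Type) [Fintype V] [DecidableEq V] [Nonempty V] (r : V → V → Bool), Ori r →
    (∀ x, fv r x ≤ 4/9) → 0 ≤ S5 r C.pos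

/-- adjacency digit -/
def ad (d : ℕ) : ℤ := if d = 0 then 0 else 1

/-- class of w relative to x y z from the digits rel(x,w), rel(y,w), rel(z,w): 0,1,2 or 3 -/
def clD (a b c : ℕ) : ℕ :=
  if a = 0 ∧ b ≠ 0 ∧ c ≠ 0 then 0 else if a ≠ 0 ∧ b = 0 ∧ c ≠ 0 then 1
  else if a ≠ 0 ∧ b ≠ 0 ∧ c = 0 then 2 else 3

/-- targets, multiplied by 18000 -/
def tg1 (r12 r13 _r23 _r14 _r24 _r34 _r15 _r25 _r35 _r45 : ℕ) : ℤ :=
  18000 * (if r12 = 1 then 1 else 0) * (if r13 = 1 then 1 else 0) - 12000 * (if r12 = 1 then 1 else 0) + 2000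

def tg2 (r12 r13 r23 r14 r24 r34 r15 r25 r35 r45 : ℕ) : ℤ :=
  ad r12 * ad r13 * ad r23 *
    (18000 * (6 * (if clD r14 r24 r34 = clD r15 r25 r35 ∧ clD r14 r24 r34 ≠ 3 then ad r45 else 0)
      + (if clD r14 r24 r34 = 3 then 1 else 0)) - 81)

def tg3 (r12 _r13 _r23 _r14 _r24 _r34 _r15 _r25 _r35 _r45 : ℕ) : ℤ := 18000 * (1 - ad r12)

/-- CTG (100 lines): the sums of the targets. -/
def S_CTG : Prop := ∀ (V : Type) [Fintype V] [DecidableEq V] [Nonempty V] (r : V → V → Bool), Ori r →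
  ((S5 r tg1 : ℤ) : ℝ) = 18000 * V3 r * (Fintype.card V : ℝ)^5 ∧
  ((S5 r tg2 : ℤ) : ℝ) = 18000 * (av fun x => av fun y => av fun z =>
      B (tri r x y z) * (6 * ce r (cls r x y z) + cu (cls r x y z) - 45/10000)) * (Fintype.card V : ℝ)^5 ∧
  ((S5 r tg3 : ℤ) : ℝ) = 18000 * (1 - rho r) * (Fintype.card V : ℝ)^5

/-! ### symmetrisation -/

/-- digit (i, j) of a packed pattern on five positions (base 4, place 5 i + j) -/
def pd (P i j : ℕ) : ℕ := (P >>> (2 * (5 * i + j))) % 4

/-- evaluation at the positions a b c d e -/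
def evp (f : ℕ → ℕ → ℕ → ℕ → ℕ → ℕ → ℕ → ℕ → ℕ → ℕ → ℤ) (P a b c d e : ℕ) : ℤ :=
  f (pd P a b) (pd P a c) (pd P b c) (pd P a d) (pd P b d) (pd P c d)
      (pd P a e) (pd P b e) (pd P c e) (pd P d e)

end P8H39.FDF
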