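import Mathlib
import Pool.Agent.P8H39.FDF.Stm

/-! PROJECT FDF, part 2: final form (all m, block constructions). -/

namespace P8H39.FDF

open Finset

/-- the Fon-der-Flaass condition: the set s contains a vertex which is isolated in s or a vertex which sends an arc to
every other vertex of s -/
def fdf {V : Type} (r : V → V → Bool) (s : Finset V) : Prop :=
  ∃ x ∈ s, (∀ y ∈ s, r x y = false ∧ r y x = false) ∨ (∀ y ∈ s, y ≠ x → r x y = true)

/-- the triples in the Fon-der-Flaass 3-graph -/
noncomputable def fdfT {V : Type} [Fintype V] [DecidableEq V] (r : V → V → Bool) : Finset (Finset V) := by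
  classical exact (powersetCard 3 univ).filter fun s => fdf r s

/-- the number of arcs -/
noncomputable def arcs {V : Type} [Fintype V] (r : V → V → Bool) : ℕ :=
  ((univ : Finset (V × V)).filter fun q => r q.1 q.2 = true).card

/-- CNT (120 lines; helper56). Exact count: of the N^3 ordered triples (repetitions allowed) with `miss`, 6 per
3-subset with `fdf`; (x,x,z) in the three positions: miss iff not r x z (z <> x), i.e. 3 (N(N-1) - arcs); (x,x,x): N.
(`miss r x x z = true` iff r x z = false by `Ori`.) -/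
def S_CNT : Prop := ∀ (V : Type) [Fintype V] [DecidableEq V] (r : V → V → Bool), Ori r →
  FF r * (Fintype.card V : ℝ)^3 = 6 * ((fdfT r).card : ℝ)
    + 3 * ((Fintype.card V : ℝ) * ((Fintype.card V : ℝ) - 1) - (arcs r : ℝ)) + (Fintype.card V : ℝ)

/-- K4 (60 lines): every four vertices contain a triple with `fdf`. PROOF. Suppose t = {a,b,c,d} has no such triple. Then
every triple in t has at least two adjacent pairs and no vertex with two out-neighbours. If a vertex x of t had two
out-neighbours y, z in t then {x,y,z} would be fdf; so out-degrees in t are at most 1, and there are at most 4 arcs.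
Each vertex x is non-adjacent to at most one other vertex (else it is isolated in a triple); so there are at least
4 adjacent pairs, hence exactly 4 arcs, all out-degrees 1, adjacency graph = C4, and the orientation is a directed
4-cycle: excluded by `NoC4` (in Lean: r on the 12 ordered pairs, decide over Booleans, or case bashing). -/
def S_K4 : Prop := ∀ (V : Type) [DecidableEq V] (r : V → V → Bool), Ori r →
  ∀ t : Finset V, t.card = 4 →
    (∀ a ∈ t, ∀ b ∈ t, ∀ c ∈ t, ∀ d ∈ t, r a b = true → r b c = true → r c d = true → r d a = true →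
      adj r a c = true ∨ adj r b d = true) →
    ∃ s ⊆ t, s.card = 3 ∧ fdf r s

/-- HOL (30 lines): Hoelder. For x_i >= 0 (i < k), y_j >= 0 (j < l), k + l >= 1:
(4/(3k+2l)^2) (sum x + sum y)^3 <= (4/9) sum x^3 + sum y^3.
PROOF. Tangent line: with m = 3k+2l, S = sum x + sum y, a = S/m: x^3 >= (3a)^3 + 3 (3a)^2 (x - 3a), y^3 >= (2a)^3 + 3 (2a)^2 (y - 2a)
for x, y >= 0. So (4/9) sum x^3 + sum y^3 >= (4/9)(27 a^3 k) + 8 a^3 l + 12 a^2 (sum x - 3ak) + 12 a^2 (sum y - 2al)
= 4 a^3 (3k + 2l) + 12 a^2 (S - a m) = 4 a^3 m = 4 S^3/m^2. -/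
def S_HOL : Prop := ∀ (k l : ℕ) (x : Fin (k + l) → ℝ), 1 ≤ k + l → (∀ i, 0 ≤ x i) →
  4 / ((3 * k + 2 * l : ℕ) : ℝ)^2 * (∑ i, x i)^3 ≤
    ∑ i, (if i.val < k then (4/9 : ℝ) else 1) * (x i)^3

/-- block construction: `b x` is the block of x; blocks with index < k carry the oriented graph r (restricted to the
block), all triples inside the blocks with index >= k are taken -/
noncomputable def blkT {V : Type} [Fintype V] [DecidableEq V] (k l : ℕ) (b : V → Fin (k + l)) (r : V → V → Bool) :
    Finset (Finset V) := by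
  classical exact (powersetCard 3 univ).filter fun s =>
    ∃ i : Fin (k + l), (∀ x ∈ s, b x = i) ∧ (k ≤ i.val ∨ fdf r s)

/-- BLK (120 lines). PROOF. (1) m = 3k+2l+1 vertices: by pigeonhole some block with index < k contains 4 of them (K4) or some
block with index >= k contains 3 of them. (2) For block i let W_i = {x // b x = i}, n_i its size. For i < k: the number of
3-subsets of V inside block i with fdf is (fdfT (r on W_i)).card (fdf depends only on r on s), and by 4/9 <= FF and CNT
6 card >= (4/9) n_i^3 - 3 n_i^2 + 2 n_i (arcs >= 0; also true for n_i = 0). For i >= k it is choose n_i 3, and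
6 choose n 3 = n^3 - 3n^2 + 2n. Sum, with sum n_i = N, sum n_i^2 <= N^2, HOL:
6 |blkT| >= 4/(3k+2l)^2 N^3 - 3N^2 + 2N, and 6 choose N 3 = N^3 - 3N^2 + 2N. -/
def S_BLK : Prop := S_K4 → S_HOL → S_CNT →
  (∀ (V : Type) [Fintype V] [DecidableEq V] [Nonempty V] (r : V → V → Bool), Ori r → NoC4 r → 4/9 ≤ FF r) →
  ∀ (k l : ℕ), 1 ≤ k + l → ∀ (V : Type) [Fintype V] [DecidableEq V] (b : V → Fin (k + l)) (r : V → V → Bool),
    Ori r →
    (∀ a c d e : V, b a = b c → b a = b d → b a = b e → (b a).val < k →
      r a c = true → r c d = true → r d e = true → r e a = true → adj r a d = true ∨ adj r c e = true) →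
    (∀ t : Finset V, t.card = 3 * k + 2 * l + 1 → ∃ s ∈ blkT k l b r, s ⊆ t) ∧
    6 * (((powersetCard 3 (univ : Finset V)) \ blkT k l b r).card : ℝ) ≤
      (1 - (2 / ((3 * k + 2 * l : ℕ) : ℝ))^2) * (Fintype.card V : ℝ)^3

/-- SHARP (100 lines): Turan's construction: V = Fin 3 × Fin q, r (i,x) (j,y) iff j = i + 1. It is oriented, NoC4, and
6 |fdfT| = (4/9) N^3 - 3 N^2 + 2 N + 3 arcs with N = 3q, arcs = 3 q^2. (From CNT: FF = 4/9 exactly, FF is the average over
(Fin 3)^3 of miss of the cyclic triangle: 12 of 27 ordered triples.) -/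
def S_SHARP : Prop := ∀ q : ℕ, 1 ≤ q →
  let r : (Fin 3 × Fin q) → (Fin 3 × Fin q) → Bool := fun x y => decide (y.1 = x.1 + 1)
  Ori r ∧ NoC4 r ∧ FF r = 4/9

end P8H39.FDF
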